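import Mathlib

/-!
# A minimally non-perfectly divisible graph with a bisimplicial vertex

We build a finite graph `Gr` with clique number `3` such that

* every vertex has a neighbourhood among the *earlier* vertices (`Bk`) that is the union of two
  cliques, so every nonempty induced subgraph has a bisimplicial vertex (its last vertex), and
* `Gr` has no good partition `(A, B)`: if `A` is perfect and `B` is triangle-free, then each of three
  disjoint cycles of 5-wheels contains an edge inside `B`; triangles on such an edge push vertices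
  into `A`, and a gadget of eight vertices attached to three such edges closes an induced 5-cycle in `A`.

A minimal non-perfectly divisible induced subgraph of `Gr` is then an MNPD graph with a bisimplicial
vertex.
-/

set_option autoImplicit false
set_option linter.unusedTactic false
set_option linter.unreachableTactic false

namespace Pool.Agent.Results.MP_090c48_co.BisimplicialVertexExists

/-- `G` is perfect: every induced subgraph has chromatic number equal to its clique number. -/
def IsPerfect {V : Type} (G : SimpleGraph V) : Prop :=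
  ∀ T : Set V, (G.induce T).chromaticNumber = ((G.induce T).cliqueNum : ℕ∞)

/-- `(A, B)` is a good partition of `G`: `A` induces a perfect graph and the clique number of the
subgraph induced by `B` is smaller than the clique number of `G`. -/
def GoodPartition {V : Type} (G : SimpleGraph V) (A B : Set V) : Prop :=
  A ∪ B = Set.univ ∧ Disjoint A B ∧ IsPerfect (G.induce A) ∧ (G.induce B).cliqueNum < G.cliqueNum

/-- `G` is perfectly divisible: every induced subgraph with at least one edge has a good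
partition. -/
def PerfectlyDivisible {V : Type} (G : SimpleGraph V) : Prop :=
  ∀ S : Set V, (∃ u v : S, (G.induce S).Adj u v) → ∃ A B : Set S, GoodPartition (G.induce S) A B

/-- `G` is minimally non-perfectly divisible. -/
def IsMNPD {V : Type} (G : SimpleGraph V) : Prop :=
  ¬ PerfectlyDivisible G ∧ ∀ S : Set V, S ≠ Set.univ → PerfectlyDivisible (G.induce S)

/-- `v` is bisimplicial: its neighbourhood is the union of two cliques. -/
def IsBisimplicial {V : Type} (G : SimpleGraph V) (v : V) : Prop :=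
  ∃ K₁ K₂ : Set V, G.IsClique K₁ ∧ G.IsClique K₂ ∧ G.neighborSet v = K₁ ∪ K₂

/-! ### Transport along isomorphisms -/

/-- Restricting an isomorphism to induced subgraphs. -/
def isoInduce {V W : Type} {G : SimpleGraph V} {H : SimpleGraph W} (e : G ≃g H) (T : Set V) :
    G.induce T ≃g H.induce (e '' T) where
  toEquiv := e.toEquiv.image T
  map_rel_iff' := by
    intro a b
    simp only [SimpleGraph.comap_adj, Function.Embedding.subtype_apply]
    exact e.map_rel_iff'

theorem chi_iso {V W : Type} {G : SimpleGraph V} {H : SimpleGraph W} (e : G ≃g H) :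
    G.chromaticNumber = H.chromaticNumber :=
  le_antisymm (SimpleGraph.chromaticNumber_mono_of_hom e.toHom)
    (SimpleGraph.chromaticNumber_mono_of_hom e.symm.toHom)

theorem cliqueNum_le_of_iso {V W : Type} [Fintype V] [Fintype W] {G : SimpleGraph V}
    {H : SimpleGraph W} (e : G ≃g H) : G.cliqueNum ≤ H.cliqueNum := by
  classical
  obtain ⟨s, hs⟩ := G.exists_isNClique_cliqueNum
  have h1 : H.IsClique (s.map e.toEquiv.toEmbedding : Set W) := by
    intro x hx y hy hxy
    rw [Finset.mem_coe, Finset.mem_map] at hx hy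
    obtain ⟨a, ha, rfl⟩ := hx
    obtain ⟨b, hb, rfl⟩ := hy
    exact e.map_rel_iff'.2 (hs.isClique ha hb (fun h => hxy (by rw [h])))
  have h2 := h1.card_le_cliqueNum
  rwa [Finset.card_map, hs.card_eq] at h2

theorem cliqueNum_iso {V W : Type} [Fintype V] [Fintype W] {G : SimpleGraph V}
    {H : SimpleGraph W} (e : G ≃g H) : G.cliqueNum = H.cliqueNum :=
  le_antisymm (cliqueNum_le_of_iso e) (cliqueNum_le_of_iso e.symm)

theorem perfect_iso {V W : Type} [Fintype V] [Fintype W] {G : SimpleGraph V}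
    {H : SimpleGraph W} (e : G ≃g H) (h : IsPerfect G) : IsPerfect H := by
  classical
  intro T
  have e2 : H.induce T ≃g G.induce (e.symm '' T) := isoInduce e.symm T
  have h1 := h (e.symm '' T)
  have f1 : Fintype ↥T := Fintype.ofFinite _
  have f2 : Fintype ↥(e.symm '' T) := Fintype.ofFinite _
  rw [chi_iso e2, cliqueNum_iso e2, h1]

theorem pd_iso {V W : Type} [Fintype V] [Fintype W] {G : SimpleGraph V}
    {H : SimpleGraph W} (e : G ≃g H) (h : PerfectlyDivisible G) : PerfectlyDivisible H := by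
  classical
  intro S hS
  set S' : Set V := e.symm '' S with hS'
  have e2 : H.induce S ≃g G.induce S' := isoInduce e.symm S
  obtain ⟨u, v, huv⟩ := hS
  obtain ⟨A, B, hAB, hdisj, hA, hB⟩ := h S' ⟨e2 u, e2 v, e2.map_rel_iff'.2 huv⟩
  refine ⟨e2.symm '' A, e2.symm '' B, ?_, ?_, ?_, ?_⟩
  · rw [← Set.image_union, hAB, Set.image_univ]
    exact e2.symm.surjective.range_eq
  · exact Set.disjoint_image_of_injective e2.symm.injective hdisj
  · have f1 : Fintype ↥A := Fintype.ofFinite _
    have f2 : Fintype ↥(e2.symm '' A) := Fintype.ofFinite _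
    exact perfect_iso (isoInduce e2.symm A) hA
  · have f1 : Fintype ↥B := Fintype.ofFinite _
    have f2 : Fintype ↥(e2.symm '' B) := Fintype.ofFinite _
    have f3 : Fintype ↥S := Fintype.ofFinite _
    have f4 : Fintype ↥S' := Fintype.ofFinite _
    rw [← cliqueNum_iso (isoInduce e2.symm B), cliqueNum_iso e2]
    exact hB

/-- An induced subgraph of an induced subgraph. -/
noncomputable def induceInduce {V : Type} (G : SimpleGraph V) (S : Set V) (T : Set ↥S) :
    (G.induce S).induce T ≃g G.induce (Subtype.val '' T) where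
  toEquiv := (Equiv.Set.image Subtype.val T Subtype.val_injective)
  map_rel_iff' := by
    intro a b
    rfl

/-- A non-perfectly divisible graph each nonempty induced subgraph of which has a bisimplicial vertex
contains an MNPD graph with a bisimplicial vertex. -/
theorem exists_mnpd {V : Type} [Fintype V] {G : SimpleGraph V} (h : ¬ PerfectlyDivisible G)
    (hb : ∀ S : Set V, S.Nonempty → ∃ v : S, IsBisimplicial (G.induce S) v) :
    ∃ S : Set V, IsMNPD (G.induce S) ∧ ∃ v : S, IsBisimplicial (G.induce S) v := by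
  classical
  have huniv : ¬ PerfectlyDivisible (G.induce Set.univ) := by
    intro h1
    have e : G.induce Set.univ ≃g G := SimpleGraph.induceUnivIso G
    have f1 : Fintype ↥(Set.univ : Set V) := Fintype.ofFinite _
    exact h (pd_iso e h1)
  have hfin : Set.Finite {S : Set V | ¬ PerfectlyDivisible (G.induce S)} := Set.toFinite _
  obtain ⟨S, hS, hmin⟩ := Set.exists_min_image _ Set.ncard hfin ⟨Set.univ, huniv⟩
  refine ⟨S, ⟨hS, ?_⟩, ?_⟩
  · intro T hT
    by_contra hcon
    have f1 : Fintype ↥(Subtype.val '' T : Set V) := Fintype.ofFinite _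
    have f2 : Fintype ↥T := Fintype.ofFinite _
    have h2 : ¬ PerfectlyDivisible (G.induce (Subtype.val '' T)) :=
      fun h3 => hcon (pd_iso (induceInduce G S T).symm h3)
    have h3 := hmin _ h2
    obtain ⟨x, hx⟩ : ∃ x, x ∉ T := by
      by_contra hc
      push Not at hc
      exact hT (Set.eq_univ_of_forall hc)
    have h4 : (Subtype.val '' T : Set V) ⊂ S := by
      refine ⟨?_, ?_⟩
      · rintro _ ⟨y, -, rfl⟩
        exact y.2
      · intro hsub
        obtain ⟨y, hy, hyx⟩ := hsub x.2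
        exact hx (Subtype.val_injective hyx ▸ hy)
    exact absurd (Set.ncard_lt_ncard h4) (not_lt.2 h3)
  · refine hb S ?_
    by_contra hne
    rw [Set.not_nonempty_iff_eq_empty] at hne
    subst hne
    refine hS (fun T hT => ?_)
    obtain ⟨u, -, -⟩ := hT
    exact absurd u.1.2 (Set.notMem_empty _)

/-! ### The graph -/

/-- The vertices: for `k = 0, 1, 2` a cycle of hubs `(k, i)` and for each hub the rim `(k, i, j)` of a
5-wheel; for each choice `t` of a rim vertex in each of the three parts, eight further vertices. -/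
abbrev Vx : Type := (Fin 3 × Fin 5) ⊕ (Fin 3 × Fin 5 × Fin 5) ⊕ ((Fin 3 → Fin 5 × Fin 5) × Fin 8)

/-- hub -/
abbrev hub (k : Fin 3) (i : Fin 5) : Vx := Sum.inl (k, i)

/-- rim -/
abbrev rim (k : Fin 3) (i j : Fin 5) : Vx := Sum.inr (Sum.inl (k, i, j))

/-- gadget vertex -/
abbrev gad (t : Fin 3 → Fin 5 × Fin 5) (m : Fin 8) : Vx := Sum.inr (Sum.inr (t, m))

/-- Back neighbours of the gadget vertices. -/
def gb (t : Fin 3 → Fin 5 × Fin 5) (y : Vx) : Fin 8 → Prop
  | 0 => y = hub 0 (t 0).1 ∨ y = hub 1 (t 1).1 ∨ y = rim 1 (t 1).1 (t 1).2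
  | 1 => y = gad t 0 ∨ y = hub 2 (t 2).1 ∨ y = rim 2 (t 2).1 (t 2).2
  | 2 => y = gad t 1 ∨ y = hub 1 (t 1).1 ∨ y = rim 1 (t 1).1 (t 1).2
  | 3 => y = gad t 2 ∨ y = rim 0 (t 0).1 (t 0).2
  | 4 => y = gad t 0 ∨ y = hub 0 (t 0).1 ∨ y = rim 0 (t 0).1 (t 0).2 ∨ y = gad t 3
  | 5 => y = gad t 1 ∨ y = hub 1 (t 1).1 ∨ y = rim 1 (t 1).1 (t 1).2
  | 6 => y = gad t 5 ∨ y = rim 0 (t 0).1 (t 0).2 ∨ y = gad t 3
  | 7 => y = gad t 0 ∨ y = hub 0 (t 0).1 ∨ y = rim 0 (t 0).1 (t 0).2 ∨ y = gad t 6

/-- Back neighbours: `Bk x y` says that `y` is a neighbour of `x` that comes before `x`. -/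
def Bk : Vx → Vx → Prop
  | Sum.inl (k, i), y => ∃ j : Fin 5, y = hub k j ∧ ((j : ℕ) + 1 = i ∨ (i = 4 ∧ j = 0))
  | Sum.inr (Sum.inl (k, i, j)), y => y = hub k i ∨
      ∃ j' : Fin 5, y = rim k i j' ∧ ((j' : ℕ) + 1 = j ∨ (j = 4 ∧ j' = 0))
  | Sum.inr (Sum.inr (t, m)), y => gb t y m

/-- A rank function: back neighbours have smaller rank. -/
def rk : Vx → ℕ
  | Sum.inl (_, i) => i
  | Sum.inr (Sum.inl (_, _, j)) => 5 + j
  | Sum.inr (Sum.inr (_, m)) => 10 + m

theorem rk_lt {x y : Vx} (h : Bk x y) : rk y < rk x := by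
  rcases x with ⟨k, i⟩ | ⟨k, i, j⟩ | ⟨t, m⟩
  · obtain ⟨j, rfl, h | ⟨rfl, rfl⟩⟩ := h
    · simp only [rk]; omega
    · simp [rk]
  · rcases h with rfl | ⟨j', rfl, h | ⟨rfl, rfl⟩⟩
    · simp only [rk]; omega
    · simp only [rk]; omega
    · simp [rk]
  · fin_cases m
    · rcases h with rfl | rfl | rfl <;> (simp [rk]; try omega)
    · rcases h with rfl | rfl | rfl <;> (simp [rk]; try omega)
    · rcases h with rfl | rfl | rfl <;> (simp [rk]; try omega)
    · rcases h with rfl | rfl <;> (simp [rk]; try omega)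
    · rcases h with rfl | rfl | rfl | rfl <;> (simp [rk]; try omega)
    · rcases h with rfl | rfl | rfl <;> (simp [rk]; try omega)
    · rcases h with rfl | rfl | rfl <;> (simp [rk]; try omega)
    · rcases h with rfl | rfl | rfl | rfl <;> (simp [rk]; try omega)

/-- The graph. -/
def Gr : SimpleGraph Vx where
  Adj x y := Bk x y ∨ Bk y x
  symm := ⟨fun _ _ h => h.symm⟩
  loopless := ⟨fun x h => by
    rcases h with h | h <;> exact lt_irrefl _ (rk_lt h)⟩

theorem back_cliques (x : Vx) : ∃ K₁ K₂ : Set Vx, Gr.IsClique K₁ ∧ Gr.IsClique K₂ ∧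
    {y | Bk x y} = K₁ ∪ K₂ := by
  have hpair : ∀ a b : Vx, Gr.Adj a b → Gr.IsClique ({a, b} : Set Vx) := by
    intro a b hab u hu v hv huv
    rcases hu with rfl | rfl <;> rcases hv with rfl | rfl
    · exact absurd rfl huv
    · exact hab
    · exact hab.symm
    · exact absurd rfl huv
  have hone : ∀ a : Vx, Gr.IsClique ({a} : Set Vx) := by
    intro a u hu v hv huv
    rw [Set.mem_singleton_iff] at hu hv
    exact absurd (hu.trans hv.symm) huv
  rcases x with ⟨k, i⟩ | ⟨k, i, j⟩ | ⟨t, m⟩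
  · refine ⟨{y | ∃ j : Fin 5, y = hub k j ∧ (j : ℕ) + 1 = i}, {y | i = 4 ∧ y = hub k 0}, ?_, ?_, ?_⟩
    · rintro u ⟨j, rfl, hj⟩ v ⟨j', rfl, hj'⟩ huv
      exact absurd (by rw [show j = j' from Fin.ext (by omega)]) huv
    · rintro u ⟨-, rfl⟩ v ⟨-, rfl⟩ huv
      exact absurd rfl huv
    · ext y
      constructor
      · rintro ⟨j, rfl, h | ⟨h1, rfl⟩⟩
        · exact Or.inl ⟨j, rfl, h⟩
        · exact Or.inr ⟨h1, rfl⟩
      · rintro (⟨j, rfl, h⟩ | ⟨h1, rfl⟩)
        · exact ⟨j, rfl, Or.inl h⟩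
        · exact ⟨0, rfl, Or.inr ⟨h1, rfl⟩⟩
  · refine ⟨{y | y = hub k i ∨ ∃ j' : Fin 5, y = rim k i j' ∧ (j' : ℕ) + 1 = j},
      {y | j = 4 ∧ y = rim k i 0}, ?_, ?_, ?_⟩
    · rintro u (rfl | ⟨j1, rfl, h1⟩) v (rfl | ⟨j2, rfl, h2⟩) huv
      · exact absurd rfl huv
      · exact Or.inr (Or.inl rfl)
      · exact Or.inl (Or.inl rfl)
      · exact absurd (by rw [show j1 = j2 from Fin.ext (by omega)]) huv
    · rintro u ⟨-, rfl⟩ v ⟨-, rfl⟩ huv
      exact absurd rfl huv
    · ext y
      constructor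
      · rintro (rfl | ⟨j', rfl, h | ⟨h1, rfl⟩⟩)
        · exact Or.inl (Or.inl rfl)
        · exact Or.inl (Or.inr ⟨j', rfl, h⟩)
        · exact Or.inr ⟨h1, rfl⟩
      · rintro ((rfl | ⟨j', rfl, h⟩) | ⟨h1, rfl⟩)
        · exact Or.inl rfl
        · exact Or.inr ⟨j', rfl, Or.inl h⟩
        · exact Or.inr ⟨0, rfl, Or.inr ⟨h1, rfl⟩⟩
  · have hhr : ∀ k, Gr.Adj (hub k (t k).1) (rim k (t k).1 (t k).2) := fun k => Or.inr (Or.inl rfl)
    have key : ∀ (K₁ K₂ : Set Vx) (P : Vx → Prop), Gr.IsClique K₁ → Gr.IsClique K₂ →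
        (∀ y, P y → y ∈ K₁ ∨ y ∈ K₂) → (∀ y, y ∈ K₁ → P y) → (∀ y, y ∈ K₂ → P y) →
        ∃ K₁ K₂ : Set Vx, Gr.IsClique K₁ ∧ Gr.IsClique K₂ ∧ {y | P y} = K₁ ∪ K₂ := by
      intro K₁ K₂ P h1 h2 h3 h4 h5
      refine ⟨K₁, K₂, h1, h2, ?_⟩
      ext y
      exact ⟨fun h => h3 y h, fun h => h.elim (h4 y) (h5 y)⟩
    fin_cases m
    · refine key {hub 0 (t 0).1} {hub 1 (t 1).1, rim 1 (t 1).1 (t 1).2} (fun y => gb t y 0)
        (hone _) (hpair _ _ (hhr 1)) ?_ ?_ ?_
      · rintro y (rfl | rfl | rfl)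
        · exact Or.inl rfl
        · exact Or.inr (Or.inl rfl)
        · exact Or.inr (Or.inr rfl)
      · rintro y rfl
        exact Or.inl rfl
      · rintro y (rfl | rfl)
        · exact Or.inr (Or.inl rfl)
        · exact Or.inr (Or.inr rfl)
    · refine key {gad t 0} {hub 2 (t 2).1, rim 2 (t 2).1 (t 2).2} (fun y => gb t y 1)
        (hone _) (hpair _ _ (hhr 2)) ?_ ?_ ?_
      · rintro y (rfl | rfl | rfl)
        · exact Or.inl rfl
        · exact Or.inr (Or.inl rfl)
        · exact Or.inr (Or.inr rfl)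
      · rintro y rfl
        exact Or.inl rfl
      · rintro y (rfl | rfl)
        · exact Or.inr (Or.inl rfl)
        · exact Or.inr (Or.inr rfl)
    · refine key {gad t 1} {hub 1 (t 1).1, rim 1 (t 1).1 (t 1).2} (fun y => gb t y 2)
        (hone _) (hpair _ _ (hhr 1)) ?_ ?_ ?_
      · rintro y (rfl | rfl | rfl)
        · exact Or.inl rfl
        · exact Or.inr (Or.inl rfl)
        · exact Or.inr (Or.inr rfl)
      · rintro y rfl
        exact Or.inl rfl
      · rintro y (rfl | rfl)
        · exact Or.inr (Or.inl rfl)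
        · exact Or.inr (Or.inr rfl)
    · refine key {gad t 2} {rim 0 (t 0).1 (t 0).2} (fun y => gb t y 3) (hone _) (hone _) ?_ ?_ ?_
      · rintro y (rfl | rfl)
        · exact Or.inl rfl
        · exact Or.inr rfl
      · rintro y rfl
        exact Or.inl rfl
      · rintro y rfl
        exact Or.inr rfl
    · refine key {gad t 0, hub 0 (t 0).1} {rim 0 (t 0).1 (t 0).2, gad t 3} (fun y => gb t y 4)
        (hpair _ _ (Or.inl (Or.inl rfl))) (hpair _ _ (Or.inr (Or.inr rfl))) ?_ ?_ ?_
      · rintro y (rfl | rfl | rfl | rfl)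
        · exact Or.inl (Or.inl rfl)
        · exact Or.inl (Or.inr rfl)
        · exact Or.inr (Or.inl rfl)
        · exact Or.inr (Or.inr rfl)
      · rintro y (rfl | rfl)
        · exact Or.inl rfl
        · exact Or.inr (Or.inl rfl)
      · rintro y (rfl | rfl)
        · exact Or.inr (Or.inr (Or.inl rfl))
        · exact Or.inr (Or.inr (Or.inr rfl))
    · refine key {gad t 1} {hub 1 (t 1).1, rim 1 (t 1).1 (t 1).2} (fun y => gb t y 5)
        (hone _) (hpair _ _ (hhr 1)) ?_ ?_ ?_
      · rintro y (rfl | rfl | rfl)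
        · exact Or.inl rfl
        · exact Or.inr (Or.inl rfl)
        · exact Or.inr (Or.inr rfl)
      · rintro y rfl
        exact Or.inl rfl
      · rintro y (rfl | rfl)
        · exact Or.inr (Or.inl rfl)
        · exact Or.inr (Or.inr rfl)
    · refine key {gad t 5} {rim 0 (t 0).1 (t 0).2, gad t 3} (fun y => gb t y 6) (hone _)
        (hpair _ _ (Or.inr (Or.inr rfl))) ?_ ?_ ?_
      · rintro y (rfl | rfl | rfl)
        · exact Or.inl rfl
        · exact Or.inr (Or.inl rfl)
        · exact Or.inr (Or.inr rfl)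
      · rintro y rfl
        exact Or.inl rfl
      · rintro y (rfl | rfl)
        · exact Or.inr (Or.inl rfl)
        · exact Or.inr (Or.inr rfl)
    · refine key {gad t 0, hub 0 (t 0).1} {rim 0 (t 0).1 (t 0).2, gad t 6} (fun y => gb t y 7)
        (hpair _ _ (Or.inl (Or.inl rfl))) (hpair _ _ (Or.inr (Or.inr (Or.inl rfl)))) ?_ ?_ ?_
      · rintro y (rfl | rfl | rfl | rfl)
        · exact Or.inl (Or.inl rfl)
        · exact Or.inl (Or.inr rfl)
        · exact Or.inr (Or.inl rfl)
        · exact Or.inr (Or.inr rfl)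
      · rintro y (rfl | rfl)
        · exact Or.inl rfl
        · exact Or.inr (Or.inl rfl)
      · rintro y (rfl | rfl)
        · exact Or.inr (Or.inr (Or.inl rfl))
        · exact Or.inr (Or.inr (Or.inr rfl))

theorem no_tri {x a b c : Vx} (ha : Bk x a) (hb : Bk x b) (hc : Bk x c)
    (hab : Gr.Adj a b) (hbc : Gr.Adj b c) (hac : Gr.Adj a c) : False := by
  rcases x with ⟨k, i⟩ | ⟨k, i, j⟩ | ⟨t, m⟩
  · obtain ⟨j1, rfl, h1⟩ := ha
    obtain ⟨j2, rfl, h2⟩ := hb
    obtain ⟨j3, rfl, h3⟩ := hc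
    have n1 : j1 ≠ j2 := fun h => hab.ne (by rw [h])
    have n2 : j2 ≠ j3 := fun h => hbc.ne (by rw [h])
    have n3 : j1 ≠ j3 := fun h => hac.ne (by rw [h])
    omega
  · have hnr : ∀ j1 j2 : Fin 5, ((j1 : ℕ) + 1 = j ∨ (j = 4 ∧ j1 = 0)) →
        ((j2 : ℕ) + 1 = j ∨ (j = 4 ∧ j2 = 0)) → ¬ Gr.Adj (rim k i j1) (rim k i j2) := by
      intro j1 j2 h1 h2 h
      rcases h with h | h
      · rcases h with h | ⟨j', h, h'⟩
        · simp at h
        · simp only [rim, Sum.inr.injEq, Sum.inl.injEq, Prod.mk.injEq, true_and] at h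
          omega
      · rcases h with h | ⟨j', h, h'⟩
        · simp at h
        · simp only [rim, Sum.inr.injEq, Sum.inl.injEq, Prod.mk.injEq, true_and] at h
          omega
    rcases ha with rfl | ⟨j1, rfl, h1⟩
    · rcases hb with rfl | ⟨j2, rfl, h2⟩
      · exact hab.ne rfl
      · rcases hc with rfl | ⟨j3, rfl, h3⟩
        · exact hac.ne rfl
        · exact hnr _ _ h2 h3 hbc
    · rcases hb with rfl | ⟨j2, rfl, h2⟩
      · rcases hc with rfl | ⟨j3, rfl, h3⟩
        · exact hbc.ne rfl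
        · exact hnr _ _ h1 h3 hac
      · exact hnr _ _ h1 h2 hab
  · fin_cases m
    · rcases ha with rfl | rfl | rfl <;> rcases hb with rfl | rfl | rfl <;>
        rcases hc with rfl | rfl | rfl <;>
        first
        | exact hab.ne rfl
        | exact hbc.ne rfl
        | exact hac.ne rfl
        | (simp [Gr, Bk, gb] at hab; done)
        | (simp [Gr, Bk, gb] at hbc; done)
        | (simp [Gr, Bk, gb] at hac; done)
    · rcases ha with rfl | rfl | rfl <;> rcases hb with rfl | rfl | rfl <;>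
        rcases hc with rfl | rfl | rfl <;>
        first
        | exact hab.ne rfl
        | exact hbc.ne rfl
        | exact hac.ne rfl
        | (simp [Gr, Bk, gb] at hab; done)
        | (simp [Gr, Bk, gb] at hbc; done)
        | (simp [Gr, Bk, gb] at hac; done)
    · rcases ha with rfl | rfl | rfl <;> rcases hb with rfl | rfl | rfl <;>
        rcases hc with rfl | rfl | rfl <;>
        first
        | exact hab.ne rfl
        | exact hbc.ne rfl
        | exact hac.ne rfl
        | (simp [Gr, Bk, gb] at hab; done)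
        | (simp [Gr, Bk, gb] at hbc; done)
        | (simp [Gr, Bk, gb] at hac; done)
    · rcases ha with rfl | rfl <;> rcases hb with rfl | rfl <;>
        rcases hc with rfl | rfl <;>
        first
        | exact hab.ne rfl
        | exact hbc.ne rfl
        | exact hac.ne rfl
        | (simp [Gr, Bk, gb] at hab; done)
        | (simp [Gr, Bk, gb] at hbc; done)
        | (simp [Gr, Bk, gb] at hac; done)
    · rcases ha with rfl | rfl | rfl | rfl <;> rcases hb with rfl | rfl | rfl | rfl <;>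
        rcases hc with rfl | rfl | rfl | rfl <;>
        first
        | exact hab.ne rfl
        | exact hbc.ne rfl
        | exact hac.ne rfl
        | (simp [Gr, Bk, gb] at hab; done)
        | (simp [Gr, Bk, gb] at hbc; done)
        | (simp [Gr, Bk, gb] at hac; done)
    · rcases ha with rfl | rfl | rfl <;> rcases hb with rfl | rfl | rfl <;>
        rcases hc with rfl | rfl | rfl <;>
        first
        | exact hab.ne rfl
        | exact hbc.ne rfl
        | exact hac.ne rfl
        | (simp [Gr, Bk, gb] at hab; done)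
        | (simp [Gr, Bk, gb] at hbc; done)
        | (simp [Gr, Bk, gb] at hac; done)
    · rcases ha with rfl | rfl | rfl <;> rcases hb with rfl | rfl | rfl <;>
        rcases hc with rfl | rfl | rfl <;>
        first
        | exact hab.ne rfl
        | exact hbc.ne rfl
        | exact hac.ne rfl
        | (simp [Gr, Bk, gb] at hab; done)
        | (simp [Gr, Bk, gb] at hbc; done)
        | (simp [Gr, Bk, gb] at hac; done)
    · rcases ha with rfl | rfl | rfl | rfl <;> rcases hb with rfl | rfl | rfl | rfl <;>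
        rcases hc with rfl | rfl | rfl | rfl <;>
        first
        | exact hab.ne rfl
        | exact hbc.ne rfl
        | exact hac.ne rfl
        | (simp [Gr, Bk, gb] at hab; done)
        | (simp [Gr, Bk, gb] at hbc; done)
        | (simp [Gr, Bk, gb] at hac; done)

/-- A vertex of maximal rank in a nonempty finite set. -/
theorem exists_max_rk (s : Set Vx) (hs : s.Nonempty) : ∃ x ∈ s, ∀ y ∈ s, rk y ≤ rk x :=
  Set.exists_max_image s rk (Set.toFinite s) hs

theorem no_four (s : Finset Vx) (hs : Gr.IsClique (s : Set Vx)) : s.card ≤ 3 := by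
  classical
  by_contra hcon
  push Not at hcon
  have hne : (s : Set Vx).Nonempty := by
    rw [Finset.coe_nonempty, ← Finset.card_pos]
    omega
  obtain ⟨x, hx, hmax⟩ := exists_max_rk _ hne
  have hb : ∀ y ∈ s.erase x, Bk x y := by
    intro y hy
    rw [Finset.mem_erase] at hy
    rcases hs hx (Finset.mem_coe.2 hy.2) (fun h => hy.1 h.symm) with h | h
    · exact h
    · exact absurd (rk_lt h) (not_lt.2 (hmax y (Finset.mem_coe.2 hy.2)))
  have hcard : 3 ≤ (s.erase x).card := by
    rw [Finset.card_erase_of_mem (Finset.mem_coe.1 hx)]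
    omega
  obtain ⟨u, hu, hu3⟩ := Finset.exists_subset_card_eq hcard
  obtain ⟨a, b, c, hab, hac, hbc, rfl⟩ := Finset.card_eq_three.1 hu3
  have ha := hu (show a ∈ ({a, b, c} : Finset Vx) by simp)
  have hb' := hu (show b ∈ ({a, b, c} : Finset Vx) by simp)
  have hc := hu (show c ∈ ({a, b, c} : Finset Vx) by simp)
  exact no_tri (hb a ha) (hb b hb') (hb c hc)
    (hs (Finset.mem_coe.2 (Finset.mem_of_mem_erase ha)) (Finset.mem_coe.2 (Finset.mem_of_mem_erase hb')) hab)
    (hs (Finset.mem_coe.2 (Finset.mem_of_mem_erase hb')) (Finset.mem_coe.2 (Finset.mem_of_mem_erase hc)) hbc)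
    (hs (Finset.mem_coe.2 (Finset.mem_of_mem_erase ha)) (Finset.mem_coe.2 (Finset.mem_of_mem_erase hc)) hac)

theorem cliqueNum_le : Gr.cliqueNum ≤ 3 := by
  classical
  obtain ⟨s, hs⟩ := Gr.exists_isNClique_cliqueNum
  have := no_four s hs.isClique
  rwa [hs.card_eq] at this

/-- Every nonempty induced subgraph has a bisimplicial vertex. -/
theorem bisimp (S : Set Vx) (hS : S.Nonempty) : ∃ v : S, IsBisimplicial (Gr.induce S) v := by
  obtain ⟨x, hx, hmax⟩ := exists_max_rk S hS
  obtain ⟨K₁, K₂, h1, h2, h3⟩ := back_cliques x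
  refine ⟨⟨x, hx⟩, Subtype.val ⁻¹' K₁, Subtype.val ⁻¹' K₂, ?_, ?_, ?_⟩
  · intro a ha b hb hab
    exact h1 ha hb (fun h => hab (Subtype.ext h))
  · intro a ha b hb hab
    exact h2 ha hb (fun h => hab (Subtype.ext h))
  · ext y
    rw [← Set.preimage_union, ← h3]
    constructor
    · intro hy
      rcases (hy : Gr.Adj x y.1) with h | h
      · exact h
      · exact absurd (rk_lt h) (not_lt.2 (hmax y.1 y.2))
    · intro hy
      exact (Or.inl hy : Gr.Adj x y.1)

/-! ### No good partition -/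

/-- A set inducing a perfect graph contains no five vertices forming an induced 5-cycle. -/
theorem no_c5 {V : Type} [Fintype V] {G : SimpleGraph V} {A : Set V} (h : IsPerfect (G.induce A))
    (c : Fin 5 → V) (hA : ∀ i, c i ∈ A)
    (hc : ∀ i j, G.Adj (c i) (c j) ↔ (j = i + 1 ∨ i = j + 1)) : False := by
  classical
  have hinj : Function.Injective c := by
    intro i j hij
    by_contra hne
    -- `i` and `j` have the same neighbours on the cycle
    have h1 : ∀ k, (k = i + 1 ∨ i = k + 1) ↔ (k = j + 1 ∨ j = k + 1) := by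
      intro k
      rw [← hc i k, ← hc j k, hij]
    revert h1 hne
    clear hij hc hA
    revert i j
    decide
  set T : Set A := {x | ∃ i, x.1 = c i} with hT
  have hTa : ∀ i, (⟨c i, hA i⟩ : A) ∈ T := fun i => ⟨i, rfl⟩
  have h1 := h T
  set H := (G.induce A).induce T with hH
  have hsurj : ∀ x : T, ∃ i, x.1.1 = c i := fun x => x.2
  -- clique number at most two
  have hcl : H.cliqueNum ≤ 2 := by
    have f : Fintype ↥T := Fintype.ofFinite _
    obtain ⟨s, hs⟩ := H.exists_isNClique_cliqueNum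
    by_contra hcon
    push Not at hcon
    obtain ⟨u, hu, hu3⟩ := Finset.exists_subset_card_eq (show 3 ≤ s.card by rw [hs.card_eq]; omega)
    obtain ⟨x, y, z, hxy, hxz, hyz, rfl⟩ := Finset.card_eq_three.1 hu3
    have hx := hu (show x ∈ ({x, y, z} : Finset T) by simp)
    have hy := hu (show y ∈ ({x, y, z} : Finset T) by simp)
    have hz := hu (show z ∈ ({x, y, z} : Finset T) by simp)
    obtain ⟨i, hi⟩ := hsurj x
    obtain ⟨j, hj⟩ := hsurj y
    obtain ⟨k, hk⟩ := hsurj z
    have e1 : G.Adj x.1.1 y.1.1 := hs.isClique hx hy hxy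
    have e2 : G.Adj x.1.1 z.1.1 := hs.isClique hx hz hxz
    have e3 : G.Adj y.1.1 z.1.1 := hs.isClique hy hz hyz
    rw [hi, hj, hc] at e1
    rw [hi, hk, hc] at e2
    rw [hj, hk, hc] at e3
    clear hi hj hk
    revert i j k
    decide
  have hcol : H.Colorable 2 := by
    rw [← SimpleGraph.chromaticNumber_le_iff_colorable, h1]
    exact_mod_cast hcl
  obtain ⟨col⟩ := hcol
  have hne : ∀ i j : Fin 5, (j = i + 1 ∨ i = j + 1) →
      col ⟨⟨c i, hA i⟩, hTa i⟩ ≠ col ⟨⟨c j, hA j⟩, hTa j⟩ := by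
    intro i j hij
    exact col.valid ((hc i j).2 hij)
  obtain ⟨f, hf⟩ : ∃ f : Fin 5 → Fin 2, ∀ i, f i = col ⟨⟨c i, hA i⟩, hTa i⟩ := ⟨_, fun _ => rfl⟩
  have hne' : ∀ i j : Fin 5, (j = i + 1 ∨ i = j + 1) → f i ≠ f j := by
    intro i j hij
    rw [hf, hf]
    exact hne i j hij
  have a0 := hne' 0 1 (by decide)
  have a1 := hne' 1 2 (by decide)
  have a2 := hne' 2 3 (by decide)
  have a3 := hne' 3 4 (by decide)
  have a4 := hne' 4 0 (by decide)
  omega

theorem hub_adj (k : Fin 3) (i j : Fin 5) :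
    Gr.Adj (hub k i) (hub k j) ↔ (j = i + 1 ∨ i = j + 1) := by
  have h1 : ∀ i j : Fin 5, Bk (hub k i) (hub k j) ↔ ((j : ℕ) + 1 = i ∨ (i = 4 ∧ j = 0)) := by
    intro i j
    constructor
    · rintro ⟨j', h, h'⟩
      have : j = j' := by simpa using h
      rwa [this]
    · intro h
      exact ⟨j, rfl, h⟩
  have h2 : Gr.Adj (hub k i) (hub k j) ↔ (Bk (hub k i) (hub k j) ∨ Bk (hub k j) (hub k i)) := Iff.rfl
  rw [h2, h1, h1]
  clear h2 h1
  revert i j
  decide

theorem rim_adj (k : Fin 3) (l i j : Fin 5) :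
    Gr.Adj (rim k l i) (rim k l j) ↔ (j = i + 1 ∨ i = j + 1) := by
  have h1 : ∀ i j : Fin 5, Bk (rim k l i) (rim k l j) ↔ ((j : ℕ) + 1 = i ∨ (i = 4 ∧ j = 0)) := by
    intro i j
    constructor
    · rintro (h | ⟨j', h, h'⟩)
      · simp at h
      · have : j = j' := by simpa using h
        rwa [this]
    · intro h
      exact Or.inr ⟨j, rfl, h⟩
  have h2 : Gr.Adj (rim k l i) (rim k l j) ↔
      (Bk (rim k l i) (rim k l j) ∨ Bk (rim k l j) (rim k l i)) := Iff.rfl
  rw [h2, h1, h1]
  clear h2 h1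
  revert i j
  decide

theorem no_good {A B : Set Vx} (hAB : A ∪ B = Set.univ) (hA : IsPerfect (Gr.induce A))
    (hB : (Gr.induce B).cliqueNum < 3) : False := by
  classical
  have hmem : ∀ x, x ∉ A → x ∈ B := by
    intro x hx
    have : x ∈ A ∪ B := by rw [hAB]; trivial
    exact this.resolve_left hx
  have tri : ∀ x y z, x ∈ B → y ∈ B → z ∈ B → Gr.Adj x y → Gr.Adj x z → Gr.Adj y z → False := by
    intro x y z hx hy hz hxy hxz hyz
    have h1 : (Gr.induce B).IsClique (({⟨x, hx⟩, ⟨y, hy⟩, ⟨z, hz⟩} : Finset B) : Set B) := by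
      intro u hu v hv huv
      simp only [Finset.coe_insert, Finset.coe_singleton, Set.mem_insert_iff,
        Set.mem_singleton_iff] at hu hv
      rcases hu with rfl | rfl | rfl <;> rcases hv with rfl | rfl | rfl <;>
        first
        | exact absurd rfl huv
        | exact hxy
        | exact hxz
        | exact hyz
        | exact hxy.symm
        | exact hxz.symm
        | exact hyz.symm
    have h2 := h1.card_le_cliqueNum
    rw [Finset.card_eq_three.2 ⟨⟨x, hx⟩, ⟨y, hy⟩, ⟨z, hz⟩,
      fun h => hxy.ne (congrArg Subtype.val h), fun h => hxz.ne (congrArg Subtype.val h),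
      fun h => hyz.ne (congrArg Subtype.val h), rfl⟩] at h2
    omega
  have s1 : ∀ k, ∃ i, hub k i ∈ B := by
    intro k
    by_contra hcon
    push Not at hcon
    exact no_c5 hA (fun i => hub k i) (fun i => by_contra (fun h => hcon i (hmem _ h)))
      (hub_adj k)
  have s2 : ∀ k l, ∃ i, rim k l i ∈ B := by
    intro k l
    by_contra hcon
    push Not at hcon
    exact no_c5 hA (fun i => rim k l i) (fun i => by_contra (fun h => hcon i (hmem _ h)))
      (rim_adj k l)
  choose f hf using s1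
  choose g hg using s2
  obtain ⟨t, ht1, ht2⟩ : ∃ t : Fin 3 → Fin 5 × Fin 5, (∀ k, hub k (t k).1 ∈ B) ∧
      ∀ k, rim k (t k).1 (t k).2 ∈ B :=
    ⟨fun k => (f k, g k (f k)), fun k => hf k, fun k => hg k (f k)⟩
  have hr : ∀ k, Gr.Adj (hub k (t k).1) (rim k (t k).1 (t k).2) := fun k => Or.inr (Or.inl rfl)
  have inA : ∀ x y z, y ∈ B → z ∈ B → Gr.Adj y z → Gr.Adj x y → Gr.Adj x z → x ∈ A := by
    intro x y z hy hz hyz hxy hxz
    by_contra h
    exact tri x y z (hmem x h) hy hz hxy hxz hyz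
  have g0 : gad t 0 ∈ A := inA _ _ _ (ht1 1) (ht2 1) (hr 1) (Or.inl (Or.inr (Or.inl rfl)))
    (Or.inl (Or.inr (Or.inr rfl)))
  have g1 : gad t 1 ∈ A := inA _ _ _ (ht1 2) (ht2 2) (hr 2) (Or.inl (Or.inr (Or.inl rfl)))
    (Or.inl (Or.inr (Or.inr rfl)))
  have g2 : gad t 2 ∈ A := inA _ _ _ (ht1 1) (ht2 1) (hr 1) (Or.inl (Or.inr (Or.inl rfl)))
    (Or.inl (Or.inr (Or.inr rfl)))
  have g4 : gad t 4 ∈ A := inA _ _ _ (ht1 0) (ht2 0) (hr 0) (Or.inl (Or.inr (Or.inl rfl)))
    (Or.inl (Or.inr (Or.inr (Or.inl rfl))))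
  have g5 : gad t 5 ∈ A := inA _ _ _ (ht1 1) (ht2 1) (hr 1) (Or.inl (Or.inr (Or.inl rfl)))
    (Or.inl (Or.inr (Or.inr rfl)))
  have g7 : gad t 7 ∈ A := inA _ _ _ (ht1 0) (ht2 0) (hr 0) (Or.inl (Or.inr (Or.inl rfl)))
    (Or.inl (Or.inr (Or.inr (Or.inl rfl))))
  by_cases g3 : gad t 3 ∈ A
  · -- the 5-cycle `4, 0, 1, 2, 3`
    refine no_c5 hA ![gad t 4, gad t 0, gad t 1, gad t 2, gad t 3] ?_ ?_
    · intro i
      fin_cases i
      · exact g4
      · exact g0
      · exact g1
      · exact g2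
      · exact g3
    · intro i j
      fin_cases i <;> fin_cases j <;> simp [Gr, Bk, gb]
  · have g6 : gad t 6 ∈ A := inA _ _ _ (ht2 0) (hmem _ g3) (Or.inr (Or.inr rfl))
      (Or.inl (Or.inr (Or.inl rfl))) (Or.inl (Or.inr (Or.inr rfl)))
    refine no_c5 hA ![gad t 7, gad t 0, gad t 1, gad t 5, gad t 6] ?_ ?_
    · intro i
      fin_cases i
      · exact g7
      · exact g0
      · exact g1
      · exact g5
      · exact g6
    · intro i j
      fin_cases i <;> fin_cases j <;> simp [Gr, Bk, gb]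

theorem not_pd : ¬ PerfectlyDivisible Gr := by
  classical
  intro h
  obtain ⟨A, B, hAB, hdisj, hA, hB⟩ := h Set.univ
    ⟨⟨hub 0 0, trivial⟩, ⟨hub 0 1, trivial⟩, (hub_adj 0 0 1).2 (Or.inl rfl)⟩
  have f1 : Fintype ↥A := Fintype.ofFinite _
  have f2 : Fintype ↥(Subtype.val '' A : Set Vx) := Fintype.ofFinite _
  have f3 : Fintype ↥B := Fintype.ofFinite _
  have f4 : Fintype ↥(Subtype.val '' B : Set Vx) := Fintype.ofFinite _
  have f5 : Fintype ↥(Set.univ : Set Vx) := Fintype.ofFinite _
  refine no_good (A := Subtype.val '' A) (B := Subtype.val '' B) ?_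
    (perfect_iso (induceInduce Gr _ A) hA) ?_
  · rw [← Set.image_union, hAB, Set.image_univ]
    exact Subtype.range_coe
  · rw [← cliqueNum_iso (induceInduce Gr _ B)]
    have h1 := cliqueNum_iso (SimpleGraph.induceUnivIso Gr)
    have h2 := cliqueNum_le
    omega

/-- There is a minimally non-perfectly divisible graph that has a bisimplicial vertex. -/
theorem result : ∃ (V : Type) (_ : Fintype V) (G : SimpleGraph V),
    IsMNPD G ∧ ∃ v : V, IsBisimplicial G v := by
  classical
  obtain ⟨S, h1, h2⟩ := exists_mnpd not_pd bisimp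
  exact ⟨S, Fintype.ofFinite _, Gr.induce S, h1, h2⟩

end Pool.Agent.Results.MP_090c48_co.BisimplicialVertexExists
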